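import Mathlib
import Pool.Agent.Run7.h783.RV.Space
set_option autoImplicit false

/-!
# The extension conjecture for the paraboloid in `ℝ³` for functions of bounded variation along rays

Let `ext U f ξ = ∫_U e^{-i Φ(x)·ξ} f(x) dx`, `Φ(x) = (x_1, x_2, x_1² + x_2²)`.  The functions `g` below are
of bounded variation along the rays from a point `a`, and no regularity (except measurability) is assumed
in the angular variable: `|g(x) - g(y)| ≤ m(x) - m(y)` whenever `y` lies behind `x` on a ray from `a`.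

1. For every `q > 3`: if `g = e^{i Φ·η} f` has this property for some `η ∈ ℝ³` and `g`, `m` vanish outside
   the disc of radius `R` about `a`, then `‖ext f‖_{L^q(ℝ³)} ≤ C R^{2-6/q} ‖m‖_{L^q(ℝ²)}`.
2. If `g(a + ρ v) = l g(a + v)` with `l = l(ρ, v) ∈ [0, 1]` for all `v ≠ 0`, `ρ ≥ 1` (for example
   `g(a + v) = w(v/|v|) h(v)` with `w` bounded and `h ≥ 0` nonincreasing along the rays), then
   `‖ext f‖_q ≤ C R^{2-6/q} ‖f‖_q`.
3. `‖ext 1_A‖_q ≤ C R^{2-6/q} |A|^{1/q}` for all measurable sets `A` which are star-shaped about `a`.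

The proof.  Fresnel's integral along the rays and the identity `2⟨ξ,w⟩² = |ξ|²|w|² + ⟨ξ²,w²⟩` (squares of
complex numbers) reduce the extension of `χ(x) b(x/|x|)` at time `t` to the Fourier transform of a density on
the circle, for which Zygmund's theorem is available.  A function of bounded variation along the rays is
a superposition of functions `e^{-2πiβ|x|²} χ(x) b_β(x/|x|)` with `|b_β| ≤ C/(1+|β|)`, and the factor
`e^{-2πiβ|x|²}` is a translation in time.  This gives the decay `(1+|t|)^{-1/2+ε}` in `L^{4+}` at fixed time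
for functions on an annulus; interpolation with Plancherel's theorem, a decomposition of the angles into
level sets of `m` and a dyadic decomposition of the radius give `∫_{ℝ²} |ext f(y, t)|^p dy ≤
C (1+|t|)^{-κ} ∫ m^p` for `2 < p < 4`, `κ < p - 2` and every fixed `t`; 1 follows by integration in `t`.
-/

namespace Pool.Agent.Results.MP_5ab805_an.BoundedVariationAlongRays

open MeasureTheory Set Metric Complex
open scoped ENNReal NNReal RealInnerProductSpace

abbrev E (n : ℕ) := EuclideanSpace ℝ (Fin n)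

/-- the paraboloid `x ↦ (x_1, x_2, x_1^2 + x_2^2)` -/
noncomputable def Phi (x : E 2) : E 3 := !₂[x 0, x 1, x 0 ^ 2 + x 1 ^ 2]

/-- the Fourier extension operator of the paraboloid over `U` -/
noncomputable def ext (U : Set (E 2)) (f : E 2 → ℂ) (ξ : E 3) : ℂ :=
  ∫ x in U, Complex.exp (-((⟪Phi x, ξ⟫ : ℝ) : ℂ) * I) * f x

/-- multiplication by `e^{i Φ(x)·η}`, a translation on the side of the Fourier transform -/
noncomputable def modulate (η : E 3) (f : E 2 → ℂ) (x : E 2) : ℂ :=
  Complex.exp (((⟪Phi x, η⟫ : ℝ) : ℂ) * I) * f x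

/-- `g` and `m` vanish outside the disc of radius `R` about `a`, and `|g(x) - g(y)| ≤ m(x) - m(y)` if
`x = a + v ≠ a` and `y = a + ρ v` with `ρ ≥ 1`. -/
def VariationAlongRays (a : E 2) (R : ℝ) (g : E 2 → ℂ) (m : E 2 → ℝ) : Prop :=
  (∀ x, R < ‖x - a‖ → g x = 0 ∧ m x = 0) ∧
  ∀ v : E 2, v ≠ 0 → ∀ ρ : ℝ, 1 ≤ ρ → ‖g (a + v) - g (a + ρ • v)‖ ≤ m (a + v) - m (a + ρ • v)

open Run7.h783.RV

lemma inner_Phi (z : ℂ) (w : ℂ) (t : ℝ) :
    ⟪Phi (toE z), (!₂[w.re, w.im, t] : E 3)⟫ = ⟪w, z⟫ + t * ‖z‖ ^ 2 := by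
  have hn : ‖z‖ ^ 2 = z.re ^ 2 + z.im ^ 2 := by
    rw [← Complex.normSq_eq_norm_sq, Complex.normSq_apply]; ring
  have hi : ⟪w, z⟫ = w.re * z.re + w.im * z.im := by
    rw [Complex.inner]
    simp
    ring
  rw [PiLp.inner_apply, Fin.sum_univ_three, hn, hi]
  simp [Phi, toE_0, toE_1]

lemma ext_EC (g : E 2 → ℂ) (w : ℂ) (t : ℝ) :
    ext univ g !₂[w.re, w.im, t] = EC (fun z => g (toE z)) t w := by
  unfold ext EC
  rw [Measure.restrict_univ, ← toE_mp.integral_comp toE_emb]
  refine integral_congr_ae (Filter.Eventually.of_forall fun z => ?_)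
  simp only
  rw [inner_Phi, mul_comm]
  push_cast
  rfl

lemma Phi_meas : Measurable Phi := by
  have h : Phi = Pool.Agent.R412.RT.Phi := by
    ext1 x
    ext i
    have h0 : Pool.Agent.R412.RT.Phi x (0 : Fin 3) = x 0 := Pool.Agent.R412.RT.Phi_cast x 0
    have h1 : Pool.Agent.R412.RT.Phi x (1 : Fin 3) = x 1 := Pool.Agent.R412.RT.Phi_cast x 1
    have h2 : Pool.Agent.R412.RT.Phi x (2 : Fin 3) = ∑ i, x i ^ 2 := Pool.Agent.R412.RT.Phi_last x
    fin_cases i
    · exact h0.symm
    · exact h1.symm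
    · refine Eq.trans ?_ h2.symm
      rw [Fin.sum_univ_two]
      rfl
  have hc : Continuous Phi := by
    unfold Phi
    fun_prop
  exact hc.measurable

lemma ext_meas (g : E 2 → ℂ) (hg : Measurable g) : Measurable (ext univ g) := by
  unfold ext
  refine StronglyMeasurable.measurable ?_
  refine StronglyMeasurable.integral_prod_right
    (f := fun (ξ : E 3) (x : E 2) => Complex.exp (-((⟪Phi x, ξ⟫ : ℝ) : ℂ) * I) * g x) ?_
  refine Measurable.stronglyMeasurable ?_
  refine Measurable.mul ?_ (hg.comp measurable_snd)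
  refine Complex.measurable_exp.comp (Measurable.mul_const ?_ I)
  refine (Complex.measurable_ofReal.comp ?_).neg
  exact (Phi_meas.comp measurable_snd).inner measurable_fst

lemma modulate_meas (η : E 3) (f : E 2 → ℂ) (hf : Measurable f) : Measurable (modulate η f) := by
  unfold modulate
  refine Measurable.mul ?_ hf
  exact Complex.measurable_exp.comp ((Complex.measurable_ofReal.comp
    (Phi_meas.inner measurable_const)).mul_const I)

lemma modulate_norm (η : E 3) (f : E 2 → ℂ) (x : E 2) : ‖modulate η f x‖ = ‖f x‖ := by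
  unfold modulate
  rw [norm_mul, Complex.norm_exp_ofReal_mul_I, one_mul]

lemma ext_mod (f : E 2 → ℂ) (η ξ : E 3) : ext univ f ξ = ext univ (modulate η f) (ξ + η) := by
  unfold ext modulate
  refine integral_congr_ae (Filter.Eventually.of_forall fun x => ?_)
  simp only
  rw [← mul_assoc, ← Complex.exp_add, inner_add_right]
  congr 2
  push_cast
  ring

/-- the rescaled function on the unit disc -/
lemma bvr (a : E 2) (R : ℝ) (g : E 2 → ℂ) (m : E 2 → ℝ) (hR : 0 < R) (hg : Measurable g)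
    (hm : Measurable m) (h : VariationAlongRays a R g m) (a' : ℂ) (ha : toE a' = a) :
    BVR (fun z => g (toE (a' + R • z))) (fun z => m (toE (a' + R • z))) := by
  have hc : Measurable fun z : ℂ => toE (a' + R • z) :=
    toE_mp.measurable.comp (measurable_const.add (measurable_const_smul R))
  have e : ∀ z : ℂ, toE (a' + R • z) = a + R • toE z := fun z => by rw [toE_add, toE_smul, ha]
  refine ⟨hg.comp hc, hm.comp hc, ?_, ?_, ?_⟩
  · intro z hz
    refine (h.1 _ ?_).1
    rw [e, add_sub_cancel_left, norm_smul, Real.norm_of_nonneg hR.le, toE_norm]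
    nlinarith
  · intro z hz
    refine (h.1 _ ?_).2
    rw [e, add_sub_cancel_left, norm_smul, Real.norm_of_nonneg hR.le, toE_norm]
    nlinarith
  · intro z hz ρ hρ
    have hv : R • toE z ≠ 0 := by
      refine smul_ne_zero hR.ne' ?_
      rw [← norm_ne_zero_iff, toE_norm]
      exact norm_ne_zero_iff.2 hz
    have h1 := h.2 (R • toE z) hv ρ hρ
    simp only [e, toE_smul]
    rw [smul_comm R ρ]
    exact h1

/-- powers -/
lemma powers (q : ℝ) (hq : 3 < q) : ∃ C : ℝ≥0∞, C ≠ ∞ ∧ ∀ (a : E 2) (R : ℝ) (f : E 2 → ℂ)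
    (m : E 2 → ℝ) (η : E 3), 0 < R → Measurable f → Measurable m →
    VariationAlongRays a R (modulate η f) m →
    ∫⁻ ξ, ‖ext univ f ξ‖ₑ ^ q ≤ C * ENNReal.ofReal (R ^ (2 * q - 6)) * ∫⁻ x, ENNReal.ofReal (m x) ^ q := by
  obtain ⟨C, hC, h0⟩ := ST q hq
  have hq0 : 0 < q := by linarith
  refine ⟨C, hC, ?_⟩
  intro a R f m η hR hf hm h
  obtain ⟨a', ha⟩ := toE_surj a
  set g := modulate η f with hg
  have hgm : Measurable g := modulate_meas η f hf
  have hB := bvr a R g m hR hgm hm h a' ha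
  set F : ℂ → ℂ := fun z => g (toE z) with hF
  have hFm : Measurable F := hgm.comp toE_mp.measurable
  have e1 : ∫⁻ ξ, ‖ext univ f ξ‖ₑ ^ q = ∫⁻ ξ, ‖ext univ g ξ‖ₑ ^ q := by
    rw [← lintegral_add_right_eq_self (fun ξ => ‖ext univ g ξ‖ₑ ^ q) η]
    refine lintegral_congr fun ξ => ?_
    rw [ext_mod f η ξ]
  have e2 : ∫⁻ ξ, ‖ext univ g ξ‖ₑ ^ q = ∫⁻ t : ℝ, ∫⁻ z : ℂ, ‖EC F t z‖ₑ ^ q := by
    rw [lint_E3 _ ((ext_meas g hgm).enorm.pow_const q)]
    refine lintegral_congr fun t => lintegral_congr fun z => ?_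
    rw [ext_EC]
  have e3 : ∀ t : ℝ, ∫⁻ z : ℂ, ‖EC F t z‖ₑ ^ q = ∫⁻ z : ℂ, ‖EC (fun z => F (a' + z)) t z‖ₑ ^ q :=
    fun t => EC_trans_lint F a' t q
  have e4 := EC_dil_lint (fun z => F (a' + z)) (hFm.comp (measurable_const.add measurable_id)) R hR q hq0
  have e5 : ∫⁻ z : ℂ, ENNReal.ofReal (m (toE (a' + R • z))) ^ q =
      ENNReal.ofReal (R ^ (-2 : ℝ)) * ∫⁻ x, ENNReal.ofReal (m x) ^ q := by
    have hmm : Measurable fun x => ENNReal.ofReal (m x) ^ q := hm.ennreal_ofReal.pow_const q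
    have h1 := lint_smul (volume : Measure ℂ) (fun z => ENNReal.ofReal (m (toE (a' + z))) ^ q)
      (hmm.comp (toE_mp.measurable.comp (measurable_const.add measurable_id))) R hR.ne'
    rw [h1, Complex.finrank_real_complex, abs_of_pos (by positivity)]
    have h2 : ∫⁻ z : ℂ, ENNReal.ofReal (m (toE (a' + z))) ^ q = ∫⁻ x, ENNReal.ofReal (m x) ^ q := by
      have h3 := lintegral_add_left_eq_self (μ := (volume : Measure ℂ))
        (fun z => ENNReal.ofReal (m (toE z)) ^ q) a'
      rw [h3]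
      exact toE_mp.lintegral_comp hmm
    rw [h2]
    congr 2
    rw [Real.rpow_neg hR.le]
    norm_num
  rw [e1, e2]
  simp_rw [e3]
  rw [e4]
  calc ENNReal.ofReal (R ^ (2 * q - 4)) * ∫⁻ t : ℝ, ∫⁻ ξ : ℂ, ‖EC (fun z => F (a' + R • z)) t ξ‖ₑ ^ q
      ≤ ENNReal.ofReal (R ^ (2 * q - 4)) * (C * ∫⁻ z : ℂ, ENNReal.ofReal (m (toE (a' + R • z))) ^ q) := by
        gcongr
        exact h0 _ _ hB
    _ = C * (ENNReal.ofReal (R ^ (2 * q - 4)) * ENNReal.ofReal (R ^ (-2 : ℝ))) *
          ∫⁻ x, ENNReal.ofReal (m x) ^ q := by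
        rw [e5]
        ring
    _ = _ := by
        rw [← ENNReal.ofReal_mul (by positivity), ← Real.rpow_add hR]
        congr 3
        ring_nf

/-- **Theorem.** -/
theorem result : ∀ q : ℝ, 3 < q → ∃ C : ℝ≥0,
    (∀ (a : E 2) (R : ℝ) (f : E 2 → ℂ) (m : E 2 → ℝ) (η : E 3), 0 < R → Measurable f →
      Measurable m → VariationAlongRays a R (modulate η f) m →
      eLpNorm (ext univ f) (ENNReal.ofReal q) volume ≤
        C * ENNReal.ofReal (R ^ (2 - 6 / q)) * eLpNorm m (ENNReal.ofReal q) volume) ∧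
    (∀ (a : E 2) (R : ℝ) (f : E 2 → ℂ) (η : E 3), 0 < R → Measurable f →
      (∀ x, R < ‖x - a‖ → f x = 0) →
      (∀ v : E 2, v ≠ 0 → ∀ ρ : ℝ, 1 ≤ ρ → ∃ l ∈ Icc (0 : ℝ) 1,
        modulate η f (a + ρ • v) = l * modulate η f (a + v)) →
      eLpNorm (ext univ f) (ENNReal.ofReal q) volume ≤
        C * ENNReal.ofReal (R ^ (2 - 6 / q)) * eLpNorm f (ENNReal.ofReal q) volume) ∧
    (∀ (a : E 2) (R : ℝ) (A : Set (E 2)), 0 < R → MeasurableSet A → StarConvex ℝ a A →
      A ⊆ closedBall a R →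
      eLpNorm (ext A 1) (ENNReal.ofReal q) volume ≤
        C * ENNReal.ofReal (R ^ (2 - 6 / q)) * volume A ^ (1 / q)) := by
  intro q hq
  have hq0 : 0 < q := by linarith
  obtain ⟨C, hCt, hC⟩ := powers q hq
  have hCq : C ^ (1 / q) ≠ ∞ := ENNReal.rpow_ne_top_of_nonneg (by positivity) hCt
  have el : ∀ {X : Type} [MeasurableSpace X] {ν : Measure X} {F : Type} [NormedAddCommGroup F]
      (g : X → F), eLpNorm g (ENNReal.ofReal q) ν = (∫⁻ x, ‖g x‖ₑ ^ q ∂ν) ^ (1 / q) := by
    intro X _ ν F _ g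
    rw [eLpNorm_eq_lintegral_rpow_enorm_toReal (by simpa using hq0) ENNReal.ofReal_ne_top,
      ENNReal.toReal_ofReal hq0.le]
  have P1 : ∀ (a : E 2) (R : ℝ) (f : E 2 → ℂ) (m : E 2 → ℝ) (η : E 3), 0 < R → Measurable f →
      Measurable m → VariationAlongRays a R (modulate η f) m →
      eLpNorm (ext univ f) (ENNReal.ofReal q) volume ≤
        ((C ^ (1 / q)).toNNReal : ℝ≥0∞) * ENNReal.ofReal (R ^ (2 - 6 / q)) *
          eLpNorm m (ENNReal.ofReal q) volume := by
    intro a R f m η hR hf hm h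
    have h1 := hC a R f m η hR hf hm h
    rw [el, el, ENNReal.coe_toNNReal hCq]
    have h2 : ∫⁻ x, ENNReal.ofReal (m x) ^ q ≤ ∫⁻ x, ‖m x‖ₑ ^ q := by
      refine lintegral_mono fun x => ?_
      refine ENNReal.rpow_le_rpow ?_ hq0.le
      rw [← ofReal_norm]
      exact ENNReal.ofReal_le_ofReal (le_abs_self _)
    refine (ENNReal.rpow_le_rpow (h1.trans (mul_le_mul' le_rfl h2)) (by positivity :
      (0 : ℝ) ≤ 1 / q)).trans (le_of_eq ?_)
    rw [ENNReal.mul_rpow_of_nonneg _ _ (by positivity), ENNReal.mul_rpow_of_nonneg _ _ (by positivity),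
      ENNReal.ofReal_rpow_of_nonneg (by positivity) (by positivity), ← Real.rpow_mul hR.le]
    congr 4
    field_simp
  have P2 : ∀ (a : E 2) (R : ℝ) (f : E 2 → ℂ) (η : E 3), 0 < R → Measurable f →
      (∀ x, R < ‖x - a‖ → f x = 0) →
      (∀ v : E 2, v ≠ 0 → ∀ ρ : ℝ, 1 ≤ ρ → ∃ l ∈ Icc (0 : ℝ) 1,
        modulate η f (a + ρ • v) = l * modulate η f (a + v)) →
      eLpNorm (ext univ f) (ENNReal.ofReal q) volume ≤
        ((C ^ (1 / q)).toNNReal : ℝ≥0∞) * ENNReal.ofReal (R ^ (2 - 6 / q)) *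
          eLpNorm f (ENNReal.ofReal q) volume := by
    intro a R f η hR hf hs h
    have h1 := P1 a R f (fun x => ‖f x‖) η hR hf hf.norm ⟨?_, ?_⟩
    · rw [eLpNorm_norm] at h1
      exact h1
    · intro x hx
      refine ⟨?_, ?_⟩
      · rw [← norm_eq_zero, modulate_norm, hs x hx, norm_zero]
      · simp only [hs x hx, norm_zero]
    · intro v hv ρ hρ
      obtain ⟨l, hl, hl2⟩ := h v hv ρ hρ
      have h3 : ‖f (a + ρ • v)‖ = l * ‖f (a + v)‖ := by
        rw [← modulate_norm η f (a + ρ • v), hl2, norm_mul, modulate_norm, Complex.norm_real,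
          Real.norm_of_nonneg hl.1]
      have h4 : modulate η f (a + v) - (l : ℂ) * modulate η f (a + v) =
          ((1 - l : ℝ) : ℂ) * modulate η f (a + v) := by
        push_cast
        ring
      rw [hl2, h4, norm_mul, modulate_norm, Complex.norm_real,
        Real.norm_of_nonneg (by linarith [hl.2])]
      simp only [h3]
      linarith
  refine ⟨(C ^ (1 / q)).toNNReal, P1, P2, ?_⟩
  intro a R A hR hA hst hAR
  have h1 := P2 a R (A.indicator 1) 0 hR (measurable_one.indicator hA) ?_ ?_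
  · have e1 : ext A 1 = ext univ (A.indicator 1) := by
      funext ξ
      unfold ext
      rw [Measure.restrict_univ, ← integral_indicator hA]
      congr 1
      funext x
      by_cases hx : x ∈ A
      · rw [indicator_of_mem hx, indicator_of_mem hx]
      · rw [indicator_of_notMem hx, indicator_of_notMem hx, mul_zero]
    rw [e1]
    refine h1.trans ?_
    gcongr
    rw [el, ENNReal.rpow_le_rpow_iff (by positivity)]
    refine le_of_eq ?_
    calc ∫⁻ x, ‖A.indicator (1 : E 2 → ℂ) x‖ₑ ^ q = ∫⁻ x, A.indicator 1 x := by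
          refine lintegral_congr fun x => ?_
          by_cases hx : x ∈ A
          · rw [indicator_of_mem hx, indicator_of_mem hx]
            simp
          · rw [indicator_of_notMem hx, indicator_of_notMem hx, enorm_zero,
              ENNReal.zero_rpow_of_pos hq0]
      _ = volume A := lintegral_indicator_one hA
  · intro x hx
    rw [indicator_of_notMem]
    intro hxA
    have := hAR hxA
    rw [mem_closedBall, dist_eq_norm] at this
    linarith
  · intro v hv ρ hρ
    have hρ0 : 0 < ρ := by linarith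
    have hm0 : ∀ x, modulate 0 (A.indicator 1) x = A.indicator 1 x := by
      intro x
      unfold modulate
      rw [inner_zero_right]
      simp
    rw [hm0, hm0]
    by_cases hx : a + ρ • v ∈ A
    · refine ⟨1, ⟨zero_le_one, le_rfl⟩, ?_⟩
      have h2 : a + v ∈ A := by
        have h3 := hst hx (a := 1 - 1 / ρ) (b := 1 / ρ)
          (by rw [sub_nonneg, div_le_one hρ0]; exact hρ) (by positivity) (by ring)
        have h4 : (1 - 1 / ρ) • a + (1 / ρ) • (a + ρ • v) = a + v := by
          rw [smul_add, smul_smul, one_div_mul_cancel hρ0.ne', one_smul, sub_smul, one_smul]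
          abel
        rwa [h4] at h3
      rw [indicator_of_mem hx, indicator_of_mem h2]
      simp
    · refine ⟨0, ⟨le_rfl, zero_le_one⟩, ?_⟩
      rw [indicator_of_notMem hx]
      simp

end Pool.Agent.Results.MP_5ab805_an.BoundedVariationAlongRays
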