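import Mathlib
import Pool.Agent.Run7.h617.Tame.Six
import Pool.Agent.Run7.h617.Tame.Exa
set_option autoImplicit false

/-!
# The extension conjecture for the paraboloid in `ℝ³` for functions whose level sets meet all lines
# in a bounded number of intervals

Let `ext U f ξ = ∫_U e^{-i Φ(x)·ξ} f(x) dx`, `Φ(x) = (x_1, x_2, x_1² + x_2²)`, `U ⊆ ℝ²` measurable.
Suppose that for some `η ∈ ℝ³` and `g(x) = e^{i Φ(x)·η} f(x)` all the sets `{x ∈ U : Re (c g(x)) > s}`,
`s > 0`, `c ∈ {1, -1, i, -i}`, meet every line in a union of at most `N` intervals.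

1. For every `q > 3` and `s = q/(q-2)` (the scaling line of the restriction conjecture)
   `‖ext U f‖_{L^q(ℝ³)} ≤ C N^{1/q} ‖f‖_{L^s(U)}`, with a constant `C` which depends only on `q`, for all
   `U ⊆ ℝ²`, bounded or not.
2. For `U ⊆ B(0,1/2)` this gives the inequality `‖ext U f‖_{L^q(ℝ³)} ≤ C N^{1/q} ‖f‖_{L^q(U)}` of the
   problem, for every `q > 3`.
3. Examples: `U` convex and `f` a polynomial of degree at most `D` (`N = D + 1`), or `f` real and convex
   on `U` (`N = 2`).

The proof.  For a set `A` which meets every line in at most `N` intervals, integration in polar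
coordinates around the critical point of the phase gives `|ext A 1 (ξ)| ≤ 2 π N / |ξ_3|`, since
`∫_a^b e^{i t r²} r dr` is at most `1/|t|`.  This bound, the bound `|A|` and Plancherel's theorem in the
first two variables are combined by the layer cake formula for `f`, Hölder's inequality with weights that
depend on the level and on `ξ_3`, and an integration in `ξ_3`, which converges for `q > 3`.
-/

namespace Pool.Agent.Results.MP_5ab805_an.LevelSetsMeetLines

open MeasureTheory Set Metric Complex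
open scoped ENNReal NNReal RealInnerProductSpace

abbrev E (n : ℕ) := EuclideanSpace ℝ (Fin n)

/-- the paraboloid `x ↦ (x_1, x_2, x_1^2 + x_2^2)` -/
noncomputable def Phi (x : E 2) : E 3 := !₂[x 0, x 1, x 0 ^ 2 + x 1 ^ 2]

/-- the Fourier extension operator of the paraboloid over `U` -/
noncomputable def ext (U : Set (E 2)) (f : E 2 → ℂ) (ξ : E 3) : ℂ :=
  ∫ x in U, Complex.exp (-((⟪Phi x, ξ⟫ : ℝ) : ℂ) * I) * f x

/-- `A` is a union of at most `N` intervals. -/
def IsUnionOfIntervals (N : ℕ) (A : Set ℝ) : Prop :=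
  ∃ J : Fin N → Set ℝ, (∀ i, (J i).OrdConnected) ∧ A = ⋃ i, J i

/-- All the sets `{x ∈ U : Re (c g(x)) > s}`, `s > 0`, `c ∈ {1, -1, i, -i}`, meet every line in a union
of at most `N` intervals. -/
def FewIntervals (N : ℕ) (U : Set (E 2)) (g : E 2 → ℂ) : Prop :=
  ∀ s : ℝ, 0 < s → ∀ c ∈ ({1, -1, I, -I} : Set ℂ), ∀ x v : E 2,
    IsUnionOfIntervals N {r : ℝ | x + r • v ∈ U ∧ s < (c * g (x + r • v)).re}

/-- multiplication by `e^{i Φ(x)·η}`, a translation on the side of the Fourier transform -/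
noncomputable def modulate (η : E 3) (f : E 2 → ℂ) (x : E 2) : ℂ :=
  Complex.exp (((⟪Phi x, η⟫ : ℝ) : ℂ) * I) * f x

lemma Phi_meas : Measurable Phi := by
  have h : Phi = Pool.Agent.R412.RT.Phi := by
    ext1 x
    exact Run7.h617.Tame.Ph_eq x
  rw [h]
  exact Run7.h617.Tame.Phi_cont.measurable

lemma modulate_meas (η : E 3) (f : E 2 → ℂ) (hf : Measurable f) : Measurable (modulate η f) := by
  unfold modulate
  refine Measurable.mul ?_ hf
  exact Complex.measurable_exp.comp ((Complex.measurable_ofReal.comp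
    (Phi_meas.inner measurable_const)).mul_const I)

lemma modulate_norm (η : E 3) (f : E 2 → ℂ) (x : E 2) : ‖modulate η f x‖ = ‖f x‖ := by
  unfold modulate
  rw [norm_mul, Complex.norm_exp_ofReal_mul_I, one_mul]

open Run7.h617.Tame in
/-- the inequality for the `q`-th powers -/
lemma powers (q : ℝ) (hq : 3 < q) (N : ℕ) (hN0 : 0 < N) (U : Set (E 2)) (hU : MeasurableSet U)
    (f : E 2 → ℂ) (hf : Measurable f) (hi : IntegrableOn f U) (η : E 3)
    (hN : FewIntervals N U (modulate η f)) (hfin : ∫⁻ x in U, ‖f x‖ₑ ^ sg q ≠ ∞) :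
    ∫⁻ ξ, ‖ext U f ξ‖ₑ ^ q ≤ ENNReal.ofReal ((2 * Real.pi) ^ 3) * (ENNReal.ofReal (4 ^ q * K1 q) * N *
      (∫⁻ x in U, ‖f x‖ₑ ^ sg q) ^ (q - 2)) := by
  have hsg := sg_pos q hq
  have hm := modulate_meas η f hf
  have hmi : IntegrableOn (modulate η f) U := by
    refine (hi.norm).mono hm.aestronglyMeasurable (Filter.Eventually.of_forall fun x => ?_)
    rw [modulate_norm, norm_norm]
  have e1 : ∫⁻ ξ, ‖ext U f ξ‖ₑ ^ q = ∫⁻ ξ, ‖Run7.h617.Tame.ext U (modulate η f) ξ‖ₑ ^ q := by
    rw [← lintegral_add_right_eq_self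
      (fun ξ => ‖Run7.h617.Tame.ext U (modulate η f) ξ‖ₑ ^ q) η]
    refine lintegral_congr fun ξ => ?_
    exact congrArg (fun z : ℂ => ‖z‖ₑ ^ q) (ext_mod U f η ξ)
  have e2 : ∀ x, ‖U.indicator (modulate η f) x‖ₑ ^ sg q = U.indicator (fun x => ‖f x‖ₑ ^ sg q) x := by
    intro x
    by_cases hx : x ∈ U
    · rw [indicator_of_mem hx, indicator_of_mem hx, ← ofReal_norm, modulate_norm, ofReal_norm]
    · rw [indicator_of_notMem hx, indicator_of_notMem hx, enorm_zero, ENNReal.zero_rpow_of_pos hsg]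
  have e3 : ∫⁻ x, ‖U.indicator (modulate η f) x‖ₑ ^ sg q = ∫⁻ x in U, ‖f x‖ₑ ^ sg q := by
    simp_rw [e2]
    exact lintegral_indicator hU _
  rw [e1, ext_lint q U hU]
  gcongr 1
  rw [← e3]
  refine main_complex q hq N hN0 (U.indicator (modulate η f)) (hm.indicator hU)
    ((integrable_indicator_iff hU).2 hmi) ?_ (by rw [e3]; exact hfin)
  intro s hs c hc x v
  have : {r : ℝ | s < (c * U.indicator (modulate η f) (x + r • v)).re} =
      {r : ℝ | x + r • v ∈ U ∧ s < (c * modulate η f (x + r • v)).re} := by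
    ext r
    simp only [mem_ofPred_eq]
    by_cases hx : x + r • v ∈ U
    · rw [indicator_of_mem hx]
      exact ⟨fun h => ⟨hx, h⟩, fun h => h.2⟩
    · rw [indicator_of_notMem hx, mul_zero, zero_re]
      exact ⟨fun h => absurd h (not_lt.2 hs.le), fun h => absurd h.1 hx⟩
  rw [this]
  exact hN s hs c hc x v

open Run7.h617.Tame in
/-- the inequality on the scaling line -/
lemma scaling (q : ℝ) (hq : 3 < q) : ∃ C : ℝ≥0, ∀ (N : ℕ) (U : Set (E 2)) (f : E 2 → ℂ) (η : E 3),
    0 < N → MeasurableSet U → Measurable f → IntegrableOn f U →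
    FewIntervals N U (modulate η f) →
    eLpNorm (ext U f) (ENNReal.ofReal q) volume ≤
      C * (N : ℝ≥0∞) ^ (1 / q) * eLpNorm f (ENNReal.ofReal (q / (q - 2))) (volume.restrict U) := by
  have hq0 : 0 < q := by linarith
  have hsg := sg_pos q hq
  set K : ℝ≥0∞ := ENNReal.ofReal ((2 * Real.pi) ^ 3) * ENNReal.ofReal (4 ^ q * K1 q) with hK
  have hKt : K ≠ ∞ := ENNReal.mul_ne_top ENNReal.ofReal_ne_top ENNReal.ofReal_ne_top
  have hKq : K ^ (1 / q) ≠ ∞ := ENNReal.rpow_ne_top_of_nonneg (by positivity) hKt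
  refine ⟨(K ^ (1 / q)).toNNReal + 1, ?_⟩
  intro N U f η hN0 hU hf hi hN
  have e1 : eLpNorm (ext U f) (ENNReal.ofReal q) volume = (∫⁻ ξ, ‖ext U f ξ‖ₑ ^ q) ^ (1 / q) := by
    rw [eLpNorm_eq_lintegral_rpow_enorm_toReal (by simpa using hq0) ENNReal.ofReal_ne_top,
      ENNReal.toReal_ofReal hq0.le]
  have e2 : eLpNorm f (ENNReal.ofReal (q / (q - 2))) (volume.restrict U) =
      (∫⁻ x in U, ‖f x‖ₑ ^ sg q) ^ (1 / sg q) := by
    rw [eLpNorm_eq_lintegral_rpow_enorm_toReal (by simpa [sg] using hsg) ENNReal.ofReal_ne_top,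
      ENNReal.toReal_ofReal (by simpa [sg] using hsg.le)]
    rfl
  rw [e1, e2]
  set A := ∫⁻ x in U, ‖f x‖ₑ ^ sg q with hA
  by_cases hAt : A = ∞
  · rw [hAt, ENNReal.top_rpow_of_pos (by positivity), ENNReal.mul_top]
    · exact le_top
    · refine mul_ne_zero ?_ ?_
      · simp
      · rw [Ne, ENNReal.rpow_eq_zero_iff]
        push Not
        refine ⟨fun h => ?_, fun h => ?_⟩
        · exact absurd h (by exact_mod_cast hN0.ne')
        · exact absurd h (ENNReal.natCast_ne_top N)
  · have h1 := powers q hq N hN0 U hU f hf hi η hN hAt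
    have h2 : ENNReal.ofReal ((2 * Real.pi) ^ 3) * (ENNReal.ofReal (4 ^ q * K1 q) * N * A ^ (q - 2)) =
        K * N * A ^ (q - 2) := by
      rw [hK]
      ring
    rw [h2] at h1
    refine (ENNReal.rpow_le_rpow h1 (by positivity : (0 : ℝ) ≤ 1 / q)).trans ?_
    rw [ENNReal.mul_rpow_of_nonneg _ _ (by positivity), ENNReal.mul_rpow_of_nonneg _ _ (by positivity),
      ← ENNReal.rpow_mul]
    have h3 : (q - 2) * (1 / q) = 1 / sg q := by
      unfold sg
      rw [one_div_div]
      ring
    rw [h3]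
    gcongr
    rw [ENNReal.coe_add, ENNReal.coe_toNNReal hKq]
    exact le_self_add

/-- **Theorem.** For every `q > 3` there is a constant `C` such that (1), (2) hold; (3) and (4) are
examples. -/
theorem result : ∀ q : ℝ, 3 < q → ∃ C : ℝ≥0,
    (∀ (N : ℕ) (U : Set (E 2)) (f : E 2 → ℂ) (η : E 3), 0 < N → MeasurableSet U → Measurable f →
      IntegrableOn f U → FewIntervals N U (modulate η f) →
      eLpNorm (ext U f) (ENNReal.ofReal q) volume ≤
        C * (N : ℝ≥0∞) ^ (1 / q) * eLpNorm f (ENNReal.ofReal (q / (q - 2))) (volume.restrict U)) ∧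
    (∀ (N : ℕ) (U : Set (E 2)) (f : E 2 → ℂ) (η : E 3), 0 < N → MeasurableSet U → Measurable f →
      U ⊆ ball 0 (1 / 2) → MemLp f (ENNReal.ofReal q) (volume.restrict U) →
      FewIntervals N U (modulate η f) →
      eLpNorm (ext U f) (ENNReal.ofReal q) volume ≤
        C * (N : ℝ≥0∞) ^ (1 / q) * eLpNorm f (ENNReal.ofReal q) (volume.restrict U)) ∧
    (∀ (D : ℕ) (P : MvPolynomial (Fin 2) ℂ) (U : Set (E 2)), P.totalDegree ≤ D → Convex ℝ U →
      FewIntervals (D + 1) U (fun x => MvPolynomial.eval (fun i => (x i : ℂ)) P)) ∧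
    (∀ (U : Set (E 2)) (g : E 2 → ℝ), ConvexOn ℝ U g → FewIntervals 2 U (fun x => (g x : ℂ))) := by
  intro q hq
  have hq0 : 0 < q := by linarith
  have hq2 : 0 < q - 2 := by linarith
  obtain ⟨C, hC⟩ := scaling q hq
  set B : ℝ≥0∞ := volume (ball (0 : E 2) (1 / 2)) with hB
  have hBt : B ≠ ∞ := measure_ball_lt_top.ne
  have hexp : (0 : ℝ) ≤ 1 / (q / (q - 2)) - 1 / q := by
    rw [one_div_div, ← sub_div]
    exact div_nonneg (by linarith) hq0.le
  have hBe : B ^ (1 / (q / (q - 2)) - 1 / q) ≠ ∞ := ENNReal.rpow_ne_top_of_nonneg hexp hBt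
  refine ⟨C * (1 + (B ^ (1 / (q / (q - 2)) - 1 / q)).toNNReal), ?_, ?_, ?_, ?_⟩
  · intro N U f η hN0 hU hf hi hN
    refine (hC N U f η hN0 hU hf hi hN).trans ?_
    gcongr
    exact le_mul_of_one_le_right zero_le le_self_add
  · intro N U f η hN0 hU hf hUb hfp hN
    have hUfin : IsFiniteMeasure (volume.restrict U) :=
      ⟨by rw [Measure.restrict_apply_univ]; exact (measure_mono hUb).trans_lt measure_ball_lt_top⟩
    have hi : IntegrableOn f U := hfp.integrable (by
      rw [← ENNReal.ofReal_one]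
      exact ENNReal.ofReal_le_ofReal (by linarith))
    refine (hC N U f η hN0 hU hf hi hN).trans ?_
    have hle : ENNReal.ofReal (q / (q - 2)) ≤ ENNReal.ofReal q := by
      refine ENNReal.ofReal_le_ofReal ?_
      rw [div_le_iff₀ hq2]
      nlinarith
    have h1 := eLpNorm_le_eLpNorm_mul_rpow_measure_univ hle hfp.1
    rw [ENNReal.toReal_ofReal (by positivity), ENNReal.toReal_ofReal hq0.le,
      Measure.restrict_apply_univ] at h1
    have h2 : volume U ^ (1 / (q / (q - 2)) - 1 / q) ≤ B ^ (1 / (q / (q - 2)) - 1 / q) :=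
      ENNReal.rpow_le_rpow (measure_mono hUb) hexp
    calc (C : ℝ≥0∞) * (N : ℝ≥0∞) ^ (1 / q) *
          eLpNorm f (ENNReal.ofReal (q / (q - 2))) (volume.restrict U)
        ≤ C * (N : ℝ≥0∞) ^ (1 / q) * (eLpNorm f (ENNReal.ofReal q) (volume.restrict U) *
          B ^ (1 / (q / (q - 2)) - 1 / q)) := by
          gcongr
          exact h1.trans (by gcongr)
      _ = C * B ^ (1 / (q / (q - 2)) - 1 / q) * (N : ℝ≥0∞) ^ (1 / q) *
          eLpNorm f (ENNReal.ofReal q) (volume.restrict U) := by ring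
      _ ≤ _ := by
          gcongr
          rw [ENNReal.coe_mul, ENNReal.coe_add, ENNReal.coe_toNNReal hBe]
          gcongr
          exact le_add_self
  · intro D P U hP hU s hs c _ x v
    obtain ⟨p, hp1, hp2⟩ := Run7.h617.Tame.line_poly D P hP c s x v
    have hJ : {r : ℝ | x + r • v ∈ U}.OrdConnected := by
      have : Convex ℝ {r : ℝ | x + r • v ∈ U} := by
        intro a ha b hb α β hα hβ hαβ
        have h := hU ha hb hα hβ hαβ
        have e : α • (x + a • v) + β • (x + b • v) = x + (α • a + β • b) • v := by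
          have : x = (α + β) • x := by rw [hαβ, one_smul]
          conv_rhs => rw [this]
          simp only [smul_add, add_smul, smul_smul, smul_eq_mul]
          abel
        rw [e] at h
        exact h
      exact this.ordConnected
    have h := Run7.h617.Tame.poly_union D p hp1 _ hJ
    have e : {r : ℝ | r ∈ {r : ℝ | x + r • v ∈ U} ∧ 0 < p.eval r} = {r : ℝ | x + r • v ∈ U ∧
        s < (c * MvPolynomial.eval (fun i => (((x + r • v : E 2) i : ℝ) : ℂ)) P).re} := by
      ext r
      simp only [mem_ofPred_eq]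
      rw [hp2 r, sub_pos]
      rfl
    rw [e] at h
    exact h
  · intro U g hg s hs c hc x v
    have hJ : {r : ℝ | x + r • v ∈ U}.OrdConnected := by
      have : Convex ℝ {r : ℝ | x + r • v ∈ U} := by
        intro a ha b hb α β hα hβ hαβ
        have h := hg.1 ha hb hα hβ hαβ
        have e : α • (x + a • v) + β • (x + b • v) = x + (α • a + β • b) • v := by
          have : x = (α + β) • x := by rw [hαβ, one_smul]
          conv_rhs => rw [this]
          simp only [smul_add, add_smul, smul_smul, smul_eq_mul]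
          abel
        rw [e] at h
        exact h
      exact this.ordConnected
    have hsub : ∀ t : ℝ, {r : ℝ | r ∈ {r : ℝ | x + r • v ∈ U} ∧ g (x + r • v) ≤ t}.OrdConnected := by
      intro t
      have : Convex ℝ {r : ℝ | r ∈ {r : ℝ | x + r • v ∈ U} ∧ g (x + r • v) ≤ t} := by
        intro a ha b hb α β hα hβ hαβ
        have h := hg.convex_le t ⟨ha.1, ha.2⟩ ⟨hb.1, hb.2⟩ hα hβ hαβ
        have e : α • (x + a • v) + β • (x + b • v) = x + (α • a + β • b) • v := by
          have : x = (α + β) • x := by rw [hαβ, one_smul]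
          conv_rhs => rw [this]
          simp only [smul_add, add_smul, smul_smul, smul_eq_mul]
          abel
        rw [e] at h
        exact h
      exact this.ordConnected
    have hlt : ∀ t : ℝ, {r : ℝ | r ∈ {r : ℝ | x + r • v ∈ U} ∧ g (x + r • v) < t}.OrdConnected := by
      intro t
      have : Convex ℝ {r : ℝ | r ∈ {r : ℝ | x + r • v ∈ U} ∧ g (x + r • v) < t} := by
        intro a ha b hb α β hα hβ hαβ
        have h := hg.convex_lt t ⟨ha.1, ha.2⟩ ⟨hb.1, hb.2⟩ hα hβ hαβ
        have e : α • (x + a • v) + β • (x + b • v) = x + (α • a + β • b) • v := by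
          have : x = (α + β) • x := by rw [hαβ, one_smul]
          conv_rhs => rw [this]
          simp only [smul_add, add_smul, smul_smul, smul_eq_mul]
          abel
        rw [e] at h
        exact h
      exact this.ordConnected
    rcases hc with rfl | rfl | rfl | rfl
    · have h := Run7.h617.Tame.convex_union {r : ℝ | x + r • v ∈ U} hJ (fun r => g (x + r • v)) s (hsub s)
      simpa [IsUnionOfIntervals, Run7.h617.Tame.IsUnion] using h
    · have h := Run7.h617.Tame.union_mono (show 1 ≤ 2 by norm_num)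
        (Run7.h617.Tame.union_one (hlt (-s)))
      have e : {r : ℝ | r ∈ {r : ℝ | x + r • v ∈ U} ∧ g (x + r • v) < -s} =
          {r : ℝ | x + r • v ∈ U ∧ s < ((-1 : ℂ) * (g (x + r • v) : ℂ)).re} := by
        ext r
        simp only [mem_ofPred_eq, neg_mul, one_mul, neg_re, ofReal_re, lt_neg]
      rw [e] at h
      exact h
    · have e : {r : ℝ | x + r • v ∈ U ∧ s < (I * (g (x + r • v) : ℂ)).re} = ∅ := by
        ext r
        simp [hs.le]
      exact ⟨fun _ => ∅, fun _ => ordConnected_empty, by rw [e]; simp⟩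
    · have e : {r : ℝ | x + r • v ∈ U ∧ s < (-I * (g (x + r • v) : ℂ)).re} = ∅ := by
        ext r
        simp [hs.le]
      exact ⟨fun _ => ∅, fun _ => ordConnected_empty, by rw [e]; simp⟩

end Pool.Agent.Results.MP_5ab805_an.LevelSetsMeetLines
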