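import Mathlib
import Pool.Agent.Run7.h239.MainA
set_option autoImplicit false

/-!
# The extension conjecture for the paraboloid in `ℝ³` for polynomial phases

`ext U f ξ = ∫_U e^{-i Φ(x)·ξ} f(x) dx`, `Φ(x) = (x_1, x_2, x_1² + x_2²)`, `U ⊆ B(0,1/2)` measurable.

For every degree `d` and every `q > 3` the inequality of the problem holds, uniformly, for all the
functions `e^{iP} 1_R`, where `P` is ANY real polynomial of degree at most `d` in two variables (its
coefficients are not restricted) and `R ⊆ U` is any rectangle.  More precisely: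

1. If `f = c_j e^{i P_j}` on `N` pairwise disjoint rectangles `R_j ⊆ U`, of arbitrary orientations, and
   `f = 0` elsewhere on `U`, then
   `‖ext U f‖_{L^q(ℝ³)} ≤ C (N (1 + log N)³)^{1/q} ‖f‖_{L^q(U)}`, `C = C(d, q)`.
2. For every `s > q/(q-2)` (all exponents strictly above the scaling line of the restriction conjecture)
   `‖ext U f‖_{L^q(ℝ³)} ≤ C ∑_j |c_j| |R_j|^{1/s}`, `C = C(d, q, s)`, for `f = ∑_j c_j a_j e^{i P_j} 1_{R_j}`
   with any number of overlapping rectangles and with smooth amplitudes `a_j`, and for the limits of such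
   sums in `L¹(U)`.
3. For `f = a e^{iP} 1_R`, `0 < λ ≤ 1`, the level sets satisfy
   `|{|ext U f| > λ}| ≤ C (1 + log (1/λ))³ λ^{-3} |R|`, `C = C(d)`, which is sharp up to the logarithms.

The proof.  For a time `t = ξ_3` the Hessian of the phase is `H_t = D²P - 2t`.  The unit square is divided
into maximal dyadic squares `Q` (of side `2^{-k}`, depending on `t`) on which `|H_t| ≤ 4^k`.  A square is
resonant if `|det H_t| ≤ μ 4^k` on it.  On each square two integrations by parts give the bound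
`|Q| ∏ (1 + 2^{-k}|∂_i φ|)^{-1}`; the area formula for the polynomial maps `∇φ` and `∂_i φ` (with
Bezout type bounds for the number of preimages) and a Remez type inequality bound the sum over the
nonresonant squares by `C log³ μ / μ`.  A fixed `x` lies in a resonant square only if `t` is within `C μ` of
half an eigenvalue of `D²P` at one of boundedly many points, so the resonant part is small on average in
`t`, and it is estimated by Plancherel's theorem in `(ξ_1, ξ_2)`.
-/

namespace Pool.Agent.Results.MP_5ab805_an.PolynomialPhases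

open MeasureTheory Set Metric Complex
open scoped ENNReal NNReal RealInnerProductSpace

abbrev E (n : ℕ) := EuclideanSpace ℝ (Fin n)

/-- the paraboloid `x ↦ (x_1, x_2, x_1^2 + x_2^2)` -/
noncomputable def Phi (x : E 2) : E 3 := !₂[x 0, x 1, x 0 ^ 2 + x 1 ^ 2]

/-- the Fourier extension operator of the paraboloid over `U` -/
noncomputable def ext (U : Set (E 2)) (f : E 2 → ℂ) (ξ : E 3) : ℂ :=
  ∫ x in U, Complex.exp (-((⟪Phi x, ξ⟫ : ℝ) : ℂ) * I) * f x

/-- rectangles of arbitrary position and orientation, with or without parts of the boundary: products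
of two intervals in an orthonormal frame `e` -/
def IsRectangle (R : Set (E 2)) : Prop :=
  ∃ (e : OrthonormalBasis (Fin 2) ℝ (E 2)) (S T : Set ℝ), S.OrdConnected ∧ T.OrdConnected ∧
    R = {x | ⟪e 0, x⟫ ∈ S ∧ ⟪e 1, x⟫ ∈ T}

/-- the function `e^{iP}` for a real polynomial `P` in two variables -/
noncomputable def chirp (P : MvPolynomial (Fin 2) ℝ) (x : E 2) : ℂ :=
  Complex.exp (((MvPolynomial.eval (fun i => x i) P : ℝ) : ℂ) * I)

/-- amplitudes: `C²` functions on the plane which are bounded by `1` together with their first and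
second derivatives -/
def IsAmplitude (a : E 2 → ℂ) : Prop :=
  ContDiff ℝ 2 a ∧ ∀ x, ‖a x‖ ≤ 1 ∧ ‖fderiv ℝ a x‖ ≤ 1 ∧ ‖fderiv ℝ (fderiv ℝ a) x‖ ≤ 1

/-- `g = ∑_j c_j a_j e^{i P_j} 1_{R_j}`, a finite sum with rectangles `R_j ⊆ U`, polynomials `P_j` of
degree at most `d` and amplitudes `a_j`, and with `∑_j |c_j| |R_j|^{1/s} ≤ A` -/
def Superposition (d : ℕ) (U : Set (E 2)) (s : ℝ) (A : ℝ≥0∞) (g : E 2 → ℂ) : Prop :=
  ∃ (N : ℕ) (R : Fin N → Set (E 2)) (P : Fin N → MvPolynomial (Fin 2) ℝ) (a : Fin N → E 2 → ℂ)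
    (c : Fin N → ℂ),
    (∀ j, IsRectangle (R j) ∧ R j ⊆ U ∧ (P j).totalDegree ≤ d ∧ IsAmplitude (a j)) ∧
    (∀ x, g x = ∑ j, (R j).indicator (fun x => c j * (a j x * chirp (P j) x)) x) ∧
    ∑ j, ‖c j‖ₑ * volume (R j) ^ (1 / s) ≤ A

/-- 1. The inequality of the problem for functions with polynomial phases on `N` rectangles. -/
def Pieces (d : ℕ) (q : ℝ) : Prop :=
  ∃ C : ℝ≥0, ∀ (N : ℕ) (U : Set (E 2)) (R : Fin N → Set (E 2)) (P : Fin N → MvPolynomial (Fin 2) ℝ)
    (c : Fin N → ℂ) (f : E 2 → ℂ), 0 < N → MeasurableSet U → U ⊆ ball 0 (1 / 2) →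
    (∀ j, IsRectangle (R j) ∧ R j ⊆ U ∧ (P j).totalDegree ≤ d) →
    (∀ i j, i ≠ j → Disjoint (R i) (R j)) →
    (∀ x ∈ U, f x = ∑ j, (R j).indicator (fun x => c j * chirp (P j) x) x) →
    eLpNorm (ext U f) (ENNReal.ofReal q) volume ≤
      C * ENNReal.ofReal ((N * (1 + Real.log N) ^ 3) ^ (1 / q)) *
        eLpNorm f (ENNReal.ofReal q) (volume.restrict U)

/-- 2. The closed absolutely convex hull of the chirps, off the scaling line. -/
def Hull (d : ℕ) (q s : ℝ) : Prop :=
  ∃ C : ℝ≥0, ∀ (U : Set (E 2)) (A : ℝ≥0∞) (f : E 2 → ℂ), MeasurableSet U → U ⊆ ball 0 (1 / 2) →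
    IntegrableOn f U →
    (∀ ε : ℝ, 0 < ε → ∃ g, Superposition d U s A g ∧ ∫⁻ x in U, ‖f x - g x‖ₑ ≤ ENNReal.ofReal ε) →
    eLpNorm (ext U f) (ENNReal.ofReal q) volume ≤ C * A

/-- 3. The level sets. -/
def LevelSets (d : ℕ) : Prop :=
  ∃ C : ℝ≥0, ∀ (U : Set (E 2)) (R : Set (E 2)) (P : MvPolynomial (Fin 2) ℝ)
    (a : E 2 → ℂ) (lam : ℝ), MeasurableSet U → U ⊆ ball 0 (1 / 2) → IsRectangle R → R ⊆ U →
    P.totalDegree ≤ d → IsAmplitude a → 0 < lam → lam ≤ 1 →
    volume {ξ | lam < ‖ext U (R.indicator fun x => a x * chirp P x) ξ‖} ≤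
      C * ENNReal.ofReal ((1 + Real.log (1 / lam)) ^ 3 / lam ^ 3) * volume R

/-- **Theorem.** The extension conjecture for the paraboloid in `ℝ³` for polynomial phases. -/
theorem result : (∀ (d : ℕ) (q : ℝ), 3 < q → Pieces d q) ∧
    (∀ (d : ℕ) (q s : ℝ), 3 < q → q / (q - 2) < s → Hull d q s) ∧ (∀ d : ℕ, LevelSets d) :=
  ⟨fun d q hq => Run7.h239.PP.main1 d q hq, fun d q s hq hs => Run7.h239.PP.main2 d q s hq hs,
    fun d => Run7.h239.PP.main3 d⟩

end Pool.Agent.Results.MP_5ab805_an.PolynomialPhases
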