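import Mathlib
import Pool.Agent.Run7.h239.BVc
set_option autoImplicit false

/-!
# The extension conjecture for the paraboloid in `ℝ³` for rough amplitudes and oscillating phases

`ext U f ξ = ∫_U e^{-i Φ(x)·ξ} f(x) dx`, `Φ(x) = (x_1, x_2, x_1² + x_2²)`, `U ⊆ B(0,1/2)` measurable.

For `f = a e^{iφ}` with a bounded amplitude `a` of bounded variation (more generally of bounded
`p`-variation, `p < q/2`) and an arbitrary real `C^m` phase `φ`, and for every `q > 3`,

  `‖ext U f‖_{L^q(ℝ³)} ≤ C (1 + V + M)^{2/q + ε}`,  `C = C(m, q, p, ε)`,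

where `V` is the variation of `a` and `M^m` bounds the derivatives of order `m` of `φ`; the derivatives
of order less than `m` play no role.  In particular:

* (`M = 0`) `‖ext (a e^{iP})‖_q ≤ C (1 + V)^{2/q+ε}` uniformly over ALL real polynomials `P` of degree
  less than `m`: the extension conjecture (`L^∞ → L^q`, all `q > 3`) holds for polynomial chirps with
  amplitudes in `BV ∩ L^∞`, for example for `e^{iP} 1_S` with any set `S` of finite perimeter, and for
  amplitudes which are Hölder continuous of order `2/3`.
* (`φ = λψ`, `M = λ^{1/m}`) the estimate of the conjecture holds with the loss `λ^{2/(mq)+ε}`, so with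
  the loss `λ^ε` if `ψ` is smooth, uniformly for `ψ` in a bounded set of `C^m`, with no assumption on the
  caustics.

The proof.  On the dyadic squares of side `2^{-k_0} ∼ (1+V+M)^{-1}` the phase is replaced by a polynomial of
degree `≤ m` with a remainder whose gradient is `O(2^{k_0})`, and the amplitude is expanded in its dyadic
martingale differences.  The difference of generation `k` is a sum of chirps on squares of side `2^{-k}`
whose coefficients are bounded and have `ℓ^p` sum `O((1+V+M) 2^k)`.  For disjoint chirps on congruent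
squares the level sets satisfy `|{|ext f| > λ}| ≤ C 4^{-k} (λ^{-s} ∑ |c_j|^s)^{2+ε}`, `s ≥ 3/2`, because the
resonant sets of the squares, which are estimated by Plancherel's theorem at every time, can be chosen
with different thresholds on the different squares.  Interpolation with the trivial `L^∞` bound gives a
geometric series.
-/

namespace Pool.Agent.Results.MP_5ab805_an.RoughAmplitudes

open MeasureTheory Set Metric Complex
open scoped ENNReal NNReal RealInnerProductSpace

abbrev E (n : ℕ) := EuclideanSpace ℝ (Fin n)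

/-- the paraboloid `x ↦ (x_1, x_2, x_1^2 + x_2^2)` -/
noncomputable def Phi (x : E 2) : E 3 := !₂[x 0, x 1, x 0 ^ 2 + x 1 ^ 2]

/-- the Fourier extension operator of the paraboloid over `U` -/
noncomputable def ext (U : Set (E 2)) (f : E 2 → ℂ) (ξ : E 3) : ℂ :=
  ∫ x in U, Complex.exp (-((⟪Phi x, ξ⟫ : ℝ) : ℂ) * I) * f x

/-- `∫ |a(x + h) - a(x)|^p dx ≤ V |h|` for all `h` in the plane.  For `p = 1` it says that `a` is a function
of bounded variation; for the indicator function of a set, with any `p`, that it has finite perimeter. -/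
def VariationLe (p V : ℝ) (a : E 2 → ℂ) : Prop :=
  ∀ h : E 2, ∫⁻ x, ‖a (x + h) - a x‖ₑ ^ p ≤ ENNReal.ofReal (V * ‖h‖)

/-- **Theorem.** The `L^∞ → L^q` extension estimate, for all `q > 3`, for functions `a e^{iφ}` with `a` bounded
and of bounded `p`-variation, `1 ≤ p < q/2`, and `φ` real and `m` times continuously differentiable. -/
theorem result (m : ℕ) (q p ε : ℝ) (hm : 1 ≤ m) (hq : 3 < q) (hp : 1 ≤ p) (hpq : p < q / 2)
    (hε : 0 < ε) :
    ∃ C : ℝ≥0, ∀ (U : Set (E 2)) (a : E 2 → ℂ) (φ : E 2 → ℝ) (V M : ℝ),
      MeasurableSet U → U ⊆ ball 0 (1 / 2) →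
      Measurable a → (∀ x, ‖a x‖ ≤ 1) → (∀ x ∉ U, a x = 0) → 0 ≤ V → VariationLe p V a →
      0 ≤ M → ContDiff ℝ m φ → (∀ x, ‖iteratedFDeriv ℝ m φ x‖ ≤ M ^ m) →
      eLpNorm (ext U fun x => a x * Complex.exp ((φ x : ℂ) * I)) (ENNReal.ofReal q) volume ≤
        C * ENNReal.ofReal ((1 + V + M) ^ (2 / q + ε)) :=
  Run7.h239.PP.mainBV m hm q p ε hq hp (by linarith) hε

end Pool.Agent.Results.MP_5ab805_an.RoughAmplitudes
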